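import Pool.Agent.W89.VP.Defs

/-! # Project PX: paucity in Vinogradov's system for `9 s ≤ 10 k` : statements of the steps

`VD s k N` (from `Pool.Agent.W89.VP.Defs`) is the set of pairs `(x, y)` of `s`-tuples in `[1, N]` with equal power
sums of degrees `1..k` and `x_i ≠ y_j` for all `i, j`; `ds u v = |u - v|`. -/

set_option autoImplicit false

namespace Pool.Agent.Y970.PX

open Finset Polynomial Pool.Agent.W89.VP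

/-- `∏ (X - x_i)`. -/
noncomputable def Pr {s : ℕ} (x : Fin s → ℕ) : ℤ[X] := ∏ i, ((X : ℤ[X]) - C (x i : ℤ))

/-- The difference `∏ (X - x_i) - ∏ (X - y_j)`. -/
noncomputable def Dp {s : ℕ} (x y : Fin s → ℕ) : ℤ[X] := Pr x - Pr y

/-- The height of `F` at scale `N`: the sum of `|F_l| N^l`. -/
def ht (N : ℕ) (F : ℤ[X]) : ℕ := ∑ l ∈ range (F.natDegree + 1), (F.coeff l).natAbs * N ^ l

/-- PX-QUOT : the size of `ℤ[X] / (∏ (X - z_i), Q)` -/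
def QUOTStm : Prop := ∀ (s : ℕ) (A : Finset (Fin s)) (z : Fin s → ℤ) (Q : ℤ[X]),
  (∀ i ∈ A, Q.eval (z i) ≠ 0) →
  Nat.card (ℤ[X] ⧸ Ideal.span ({∏ i ∈ A, ((X : ℤ[X]) - C (z i)), Q} : Set ℤ[X])) =
    ∏ i ∈ A, (Q.eval (z i)).natAbs

/-- PX-CHAIN -/
def CHAINStm : Prop := ∀ P Q H E E1 : ℤ[X],
  H * E ∈ Ideal.span ({P, Q} : Set ℤ[X]) → H * E1 ∈ Ideal.span ({P, Q} : Set ℤ[X]) →
  Finite (ℤ[X] ⧸ Ideal.span ({P, H} : Set ℤ[X])) → Finite (ℤ[X] ⧸ Ideal.span ({P, E, E1} : Set ℤ[X])) →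
  Nat.card (ℤ[X] ⧸ Ideal.span ({P, Q} : Set ℤ[X])) ≤
    Nat.card (ℤ[X] ⧸ Ideal.span ({P, H} : Set ℤ[X])) * Nat.card (ℤ[X] ⧸ Ideal.span ({P, E, E1} : Set ℤ[X]))

/-- PX-RES : the quotient by `(P, E, E1)` has at most `|Res(E, E1)|` elements -/
def RESStm : Prop := ∀ P E E1 : ℤ[X], P.Monic → IsRelPrime E E1 → E ≠ 0 → E1 ≠ 0 →
  Finite (ℤ[X] ⧸ Ideal.span ({P, E, E1} : Set ℤ[X])) ∧
  Nat.card (ℤ[X] ⧸ Ideal.span ({P, E, E1} : Set ℤ[X])) ≤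
    (resultant E E1 E.natDegree E1.natDegree).natAbs

/-- PX-DET : bound for the resultant -/
def DETStm : Prop := ∀ (E E1 : ℤ[X]) (N : ℕ), 1 ≤ N →
  (resultant E E1 E.natDegree E1.natDegree).natAbs * N ^ (E.natDegree * E1.natDegree) ≤
    (E.natDegree + E1.natDegree).factorial * ht N E ^ E1.natDegree * ht N E1 ^ E.natDegree

/-- PX-GELF : heights are almost multiplicative -/
def GELFStm : Prop := ∀ r : ℕ, ∃ C : ℕ, ∀ N : ℕ, 1 ≤ N → ∀ H E : ℤ[X], H ≠ 0 → E ≠ 0 →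
  (H * E).natDegree ≤ r → ht N H * ht N E ≤ C * ht N (H * E)

/-- PX-HTB : basic facts on heights -/
def HTBStm : Prop :=
  (∀ (N : ℕ) (F : ℤ[X]) (z : ℤ), z.natAbs ≤ N → (F.eval z).natAbs ≤ ht N F) ∧
  (∀ (N : ℕ) (F : ℤ[X]), 1 ≤ N → F ≠ 0 → 1 ≤ ht N F) ∧
  (∀ (N : ℕ) (F : ℤ[X]) (l : ℕ), (F.coeff l).natAbs * N ^ l ≤ ht N F) ∧
  (∀ (s N : ℕ) (x y : Fin s → ℕ), (∀ i, x i ≤ N) → (∀ i, y i ≤ N) → ht N (Dp x y) ≤ 2 ^ (s + 1) * N ^ s)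

/-- PX-NUM -/
def NUMStm : Prop := ∃ s0 : ℕ, ∀ s r e e1 : ℕ, s0 ≤ s → 10 * r ≤ s → e ≤ r → e1 ≤ r → ∀ η : ℝ, 0 ≤ η →
  ((42 * s / 100 : ℕ) : ℝ) * ((577 * s / 1000 : ℕ) : ℝ) * (1 - (r : ℝ) / s - 1 / 250)
      ≤ ((42 * s / 100 : ℕ) : ℝ) * η + ((e : ℝ) + e1) * (s - η) - (e : ℝ) * e1 + 1 →
    (r : ℝ) + (s : ℝ) / 50 ≤ η

/-- PX-T2 : two solutions with the same `x_A`, `y_B` have difference polynomials with a large common divisor -/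
def T2Stm : Prop := ∃ s0 : ℕ, ∀ s k : ℕ, s0 ≤ s → k < s → 9 * s ≤ 10 * k → ∃ N0 : ℕ, ∀ N : ℕ, N0 ≤ N →
  ∀ x y x1 y1 : Fin s → ℕ, (x, y) ∈ VD s k N → (x1, y1) ∈ VD s k N →
  ∀ A B : Finset (Fin s), A.card = 42 * s / 100 → B.card = 577 * s / 1000 →
  (∀ i ∈ A, x i = x1 i) → (∀ j ∈ B, y j = y1 j) →
  (N : ℝ) ^ (((42 * s / 100 : ℕ) : ℝ) * ((577 * s / 1000 : ℕ) : ℝ) * (1 - ((s - k : ℕ) : ℝ) / s - 1 / 250))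
      ≤ ((∏ i ∈ A, ∏ j ∈ B, ds (x i) (y j) : ℕ) : ℝ) →
  ∃ H E E1 : ℤ[X], Dp x y = H * E ∧ Dp x1 y1 = H * E1 ∧
    (N : ℝ) ^ (((s - k : ℕ) : ℝ) + (s : ℝ) / 50) ≤ (ht N H : ℝ)

/-- PX-LCM -/
def LCMStm : Prop := ∀ (s : ℕ) (m : Fin s → ℕ) (V : ℕ), (∀ i, 1 ≤ m i) → 1 ≤ V → V ∣ ∏ i, m i →
  V * Finset.univ.lcm m ∣ Finset.univ.lcm (fun i => Nat.gcd V (m i)) * ∏ i, m i

/-- PX-CLO : the large common divisor shares large factors with all differences -/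
def CLOStm : Prop := ∀ s k : ℕ, 1 ≤ s → k < s → 9 * s ≤ 10 * k → ∃ N0 : ℕ, ∀ N : ℕ, N0 ≤ N →
  ∀ x y : Fin s → ℕ, (x, y) ∈ VD s k N → ∀ H E : ℤ[X], Dp x y = H * E →
  (N : ℝ) ^ (((s - k : ℕ) : ℝ) + (s : ℝ) / 50) ≤ (ht N H : ℝ) → ∀ j : Fin s,
  (N : ℝ) ^ ((s : ℝ) - ((s - k : ℕ) : ℝ) - (s : ℝ) / 250)
      ≤ ((Finset.univ.lcm (fun i => ds (x i) (y j)) : ℕ) : ℝ) →
    (N : ℝ) ^ (3 * (s : ℝ) / 200) ≤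
      ((Finset.univ.lcm (fun i => Nat.gcd (H.eval (y j : ℤ)).natAbs (ds (x i) (y j))) : ℕ) : ℝ)

/-- PX-HIT : a bounded set of rows that hits almost all columns many times -/
def HITStm : Prop := ∀ (β κ : ℝ) (h : ℕ), 0 < β → 0 < κ → ∃ T s0 : ℕ, ∀ s : ℕ, s0 ≤ s →
  ∀ I : Fin s → Finset (Fin s), (∀ j, β * s ≤ ((I j).card : ℝ)) →
    ∃ A B : Finset (Fin s), A.card ≤ T ∧ (B.card : ℝ) ≤ κ * s ∧ ∀ j, j ∉ B → h ≤ (A ∩ I j).card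

/-- PX-INC : boundedly many rows carry a large least common multiple in almost all columns -/
def INCStm : Prop := ∀ c κ : ℝ, 0 < c → 0 < κ → ∃ T s0 : ℕ, ∀ s N : ℕ, s0 ≤ s → 2 ≤ N →
  ∀ g : Fin s → Fin s → ℕ, (∀ i j, 1 ≤ g i j ∧ g i j ≤ N) →
  (∀ j, (N : ℝ) ^ (c * s) ≤ ((Finset.univ.lcm (fun i => g i j) : ℕ) : ℝ)) →
    ∃ A B : Finset (Fin s), A.card ≤ T ∧ (B.card : ℝ) ≤ κ * s ∧ ∀ j, j ∉ B → N ≤ A.lcm (fun i => g i j)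

/-- PX-SEL : a submatrix with a large product -/
def SELStm : Prop := ∀ (s a b N : ℕ) (θ : ℝ), 1 ≤ s → a ≤ s → b ≤ s → 2 ≤ N →
  ∀ m : Fin s → Fin s → ℕ, (∀ i j, 1 ≤ m i j ∧ m i j ≤ N) →
  (∀ j, (N : ℝ) ^ (θ * s) ≤ ((Finset.univ.lcm (fun i => m i j) : ℕ) : ℝ)) →
    ∃ A B : Finset (Fin s), A.card = a ∧ B.card = b ∧
      (N : ℝ) ^ ((a : ℝ) * b * θ) ≤ ((∏ i ∈ A, ∏ j ∈ B, m i j : ℕ) : ℝ)

/-- PX-DIVP : a polynomial of bounded degree and polynomial size has few divisors -/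
def DIVPStm : Prop := ∀ (r K : ℕ) (ε : ℝ), 0 < ε → ∃ C : ℝ, 0 < C ∧ ∀ N : ℕ, 1 ≤ N → ∀ D : ℤ[X], D ≠ 0 →
  D.natDegree ≤ r → (∀ l, (D.coeff l).natAbs ≤ K * N ^ K) →
    {H : ℤ[X] | H ∣ D}.Finite ∧ (({H : ℤ[X] | H ∣ D}.ncard : ℕ) : ℝ) ≤ C * (N : ℝ) ^ ε

open scoped Classical in
/-- PX-EX : few solutions have a column with a small least common multiple -/
def EXStm : Prop := ∀ (s k : ℕ) (ε : ℝ), k < s → 0 < ε → ∃ C : ℝ, 0 < C ∧ ∀ N : ℕ, 1 ≤ N → ∀ W : ℝ, 1 ≤ W →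
  (((VD s k N).filter (fun p => ∃ j,
      ((Finset.univ.lcm (fun i => ds (p.1 i) (p.2 j)) : ℕ) : ℝ) < W)).card : ℝ)
    ≤ C * W * (N : ℝ) ^ (((s - k : ℕ) : ℝ) + ε)

open scoped Classical in
/-- PX-REC : `x` is determined up to order by `y` and `s - k` of its coordinates -/
def RECStm : Prop := ∀ (s k N : ℕ) (A : Finset (Fin s)) (z y : Fin s → ℕ), s - k ≤ A.card →
  ((Fintype.piFinset fun _ : Fin s => Finset.Icc 1 N).filter (fun x : Fin s → ℕ =>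
      (x, y) ∈ VD s k N ∧ ∀ i ∈ A, x i = z i)).card ≤ s.factorial

open scoped Classical in
/-- PX-YC : few `y` are close to a given polynomial `H` through few coordinates -/
def YCStm : Prop := ∀ (s T b K : ℕ) (ε : ℝ), 0 < ε → ∃ C : ℝ, 0 < C ∧ ∀ N : ℕ, 1 ≤ N →
  ∀ H : ℤ[X], H.natDegree ≤ K → (∀ l, (H.coeff l).natAbs ≤ K * N ^ K) →
  ∀ A B : Finset (Fin s), A.card ≤ T → B.card ≤ b →
  (((Fintype.piFinset fun _ : Fin s => Finset.Icc 1 N).filter (fun y : Fin s → ℕ =>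
      ∃ x : Fin s → ℕ, (∀ i, 1 ≤ x i ∧ x i ≤ N) ∧ (∀ i, H.eval (x i : ℤ) ≠ 0) ∧
        ∀ j, j ∉ B → N ≤ A.lcm (fun i => Nat.gcd (H.eval (y j : ℤ)).natAbs (ds (x i) (y j))))).card : ℝ)
    ≤ C * (N : ℝ) ^ ((T : ℝ) + b + ε)

/-- PX-FIB : the count in a fibre -/
def FIBStm : Prop := ∀ (s k T b : ℕ) (ε : ℝ), k < s → 0 < ε → ∃ C : ℝ, 0 < C ∧ ∀ N : ℕ, 1 ≤ N →
  ∀ (A : Finset (Fin s)) (F : Finset ((Fin s → ℕ) × (Fin s → ℕ))), s - k ≤ A.card → F ⊆ VD s k N →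
  (∀ p ∈ F, ∀ p1 ∈ F, ∀ i ∈ A, p.1 i = p1.1 i) →
  (∀ p ∈ F, ∀ p1 ∈ F, ∃ H : ℤ[X], H ∣ Dp p.1 p.2 ∧ H ∣ Dp p1.1 p1.2 ∧
    ∃ A2 B2 : Finset (Fin s), A2.card ≤ T ∧ B2.card ≤ b ∧
      ∀ j, j ∉ B2 → N ≤ A2.lcm (fun i => Nat.gcd (H.eval (p.2 j : ℤ)).natAbs (ds (p.1 i) (p.2 j)))) →
  (F.card : ℝ) ≤ C * (N : ℝ) ^ ((T : ℝ) + b + ε)

/-- PX-DISJ : the count of disjoint solutions -/
def DISJ2Stm : Prop := ∃ s0 : ℕ, ∀ s k : ℕ, s0 ≤ s → k < s → 9 * s ≤ 10 * k →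
  ∃ C : ℝ, 0 < C ∧ ∀ N : ℕ, 1 ≤ N → ((VD s k N).card : ℝ) ≤ C * (N : ℝ) ^ ((s : ℝ) - (s : ℝ) / 500)

end Pool.Agent.Y970.PX
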