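import Pool.Agent.Y970.PX.Stm

/-! # Project PX: the count of disjoint solutions from the steps -/

set_option autoImplicit false

namespace Pool.Agent.Y970.PX

open Finset Polynomial Pool.Agent.W89.VP

/-- membership in `VD` gives the basic facts -/
theorem VD_basic {s k N : ℕ} {x y : Fin s → ℕ} (h : (x, y) ∈ VD s k N) :
    (∀ i, 1 ≤ x i ∧ x i ≤ N) ∧ (∀ i, 1 ≤ y i ∧ y i ≤ N) ∧ ∀ i j, x i ≠ y j := by
  simp only [VD, VS, Finset.mem_filter, Finset.mem_product, Fintype.mem_piFinset, Finset.mem_Icc] at h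
  exact ⟨h.1.1.1, h.1.1.2, h.2⟩

theorem ds_bd {u v N : ℕ} (hu : 1 ≤ u ∧ u ≤ N) (hv : 1 ≤ v ∧ v ≤ N) (h : u ≠ v) :
    1 ≤ ds u v ∧ ds u v ≤ N := by
  unfold ds
  omega

open scoped Classical in
/-- the values of `x` on `A` (and `1` elsewhere) -/
noncomputable def rst {s : ℕ} (A : Finset (Fin s)) (x : Fin s → ℕ) : Fin s → ℕ := fun i => if i ∈ A then x i else 1

open scoped Classical in
noncomputable def Rst {s : ℕ} (A : Finset (Fin s)) (N : ℕ) : Finset (Fin s → ℕ) :=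
  Fintype.piFinset fun i : Fin s => if i ∈ A then Finset.Icc 1 N else {1}

theorem rst_mem {s N : ℕ} (A : Finset (Fin s)) (x : Fin s → ℕ) (hx : ∀ i, 1 ≤ x i ∧ x i ≤ N) :
    rst A x ∈ Rst A N := by
  classical
  simp only [Rst, Fintype.mem_piFinset, rst]
  intro i
  by_cases hi : i ∈ A
  · simp [hi, hx i]
  · simp [hi]

theorem Rst_card {s N : ℕ} (A : Finset (Fin s)) : (Rst A N).card = N ^ A.card := by
  classical
  simp only [Rst, Fintype.card_piFinset]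
  have : ∀ i : Fin s, (if i ∈ A then Finset.Icc 1 N else ({1} : Finset ℕ)).card = if i ∈ A then N else 1 := by
    intro i
    by_cases hi : i ∈ A <;> simp [hi]
  rw [Finset.prod_congr rfl (fun i _ => this i)]
  rw [Finset.prod_ite]
  simp

theorem rst_eq {s : ℕ} {A : Finset (Fin s)} {x x' : Fin s → ℕ} (h : rst A x = rst A x') :
    ∀ i ∈ A, x i = x' i := by
  intro i hi
  have := congrFun h i
  simpa [rst, hi] using this

open scoped Classical in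
/-- one fibre -/
noncomputable def Fib (s k N : ℕ) (W V : ℝ) (A B : Finset (Fin s)) (ξ υ : Fin s → ℕ) :
    Finset ((Fin s → ℕ) × (Fin s → ℕ)) :=
  (VD s k N).filter (fun p => (∀ j, W ≤ ((Finset.univ.lcm (fun i => ds (p.1 i) (p.2 j)) : ℕ) : ℝ)) ∧
    V ≤ ((∏ i ∈ A, ∏ j ∈ B, ds (p.1 i) (p.2 j) : ℕ) : ℝ) ∧ rst A p.1 = ξ ∧ rst B p.2 = υ)

theorem fib_card (hT2 : T2Stm) (hCLO : CLOStm) (hINC : INCStm) (hFIB : FIBStm) :
    ∃ s0 : ℕ, ∀ s k : ℕ, s0 ≤ s → k < s → 9 * s ≤ 10 * k → ∃ (N0 : ℕ) (C : ℝ), 0 < C ∧ ∀ N : ℕ, N0 ≤ N →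
      ∀ (A B : Finset (Fin s)) (ξ υ : Fin s → ℕ), A.card = 42 * s / 100 → B.card = 577 * s / 1000 →
      ((Fib s k N ((N : ℝ) ^ ((s : ℝ) - ((s - k : ℕ) : ℝ) - (s : ℝ) / 250))
        ((N : ℝ) ^ (((42 * s / 100 : ℕ) : ℝ) * ((577 * s / 1000 : ℕ) : ℝ) * (1 - ((s - k : ℕ) : ℝ) / s - 1 / 250)))
        A B ξ υ).card : ℝ) ≤ C * (N : ℝ) ^ ((s : ℝ) / 1000) := by
  classical
  obtain ⟨s1, h1⟩ := hT2
  obtain ⟨T, s2, h2⟩ := hINC (3 / 200) (1 / 2000) (by norm_num) (by norm_num)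
  refine ⟨max (max s1 s2) (2000 * (T + 1)), ?_⟩
  intro s k hs hk h9
  have hs1 : s1 ≤ s := le_trans (le_trans (le_max_left _ _) (le_max_left _ _)) hs
  have hs2 : s2 ≤ s := le_trans (le_trans (le_max_right _ _) (le_max_left _ _)) hs
  have hs3 : 2000 * (T + 1) ≤ s := le_trans (le_max_right _ _) hs
  have hs4 : 1 ≤ s := by omega
  obtain ⟨N1, hN1⟩ := h1 s k hs1 hk h9
  obtain ⟨N2, hN2⟩ := hCLO s k hs4 hk h9
  obtain ⟨C, hC, hF⟩ := hFIB s k T (s / 2000) 1 hk one_pos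
  refine ⟨max (max N1 N2) 2, C, hC, ?_⟩
  intro N hN A B ξ υ hA hB
  have hNN1 : N1 ≤ N := le_trans (le_trans (le_max_left _ _) (le_max_left _ _)) hN
  have hNN2 : N2 ≤ N := le_trans (le_trans (le_max_right _ _) (le_max_left _ _)) hN
  have hNN3 : 2 ≤ N := le_trans (le_max_right _ _) hN
  refine le_trans (hF N (by omega) A _ ?_ ?_ ?_ ?_) ?_
  · rw [hA]; omega
  · exact Finset.filter_subset _ _
  · intro p hp p1 hp1
    simp only [Fib, Finset.mem_filter] at hp hp1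
    exact rst_eq (hp.2.2.2.1.trans hp1.2.2.2.1.symm)
  · intro p hp p1 hp1
    simp only [Fib, Finset.mem_filter] at hp hp1
    obtain ⟨hpV, hpW, hpM, hpA, hpB⟩ := hp
    obtain ⟨hp1V, hp1W, hp1M, hp1A, hp1B⟩ := hp1
    obtain ⟨H, E, E1, hE, hE1, hht⟩ := hN1 N hNN1 p.1 p.2 p1.1 p1.2 hpV hp1V A B hA hB
      (rst_eq (hpA.trans hp1A.symm)) (rst_eq (hpB.trans hp1B.symm)) hpM
    obtain ⟨hx, hy, hxy⟩ := VD_basic (x := p.1) (y := p.2) hpV
    obtain ⟨A2, B2, hA2, hB2, hAB⟩ := h2 s N hs2 hNN3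
      (fun i j => Nat.gcd (H.eval (p.2 j : ℤ)).natAbs (ds (p.1 i) (p.2 j)))
      (fun i j => by
        have h := ds_bd (hx i) (hy j) (hxy i j)
        refine ⟨Nat.gcd_pos_of_pos_right _ (by omega), ?_⟩
        exact le_trans (Nat.le_of_dvd (by omega) (Nat.gcd_dvd_right _ _)) h.2)
      (fun j => by
        have := hN2 N hNN2 p.1 p.2 hpV H E hE hht j (hpW j)
        refine le_trans (le_of_eq ?_) this
        congr 1
        ring)
    refine ⟨H, ⟨E, hE⟩, ⟨E1, hE1⟩, A2, B2, hA2, ?_, hAB⟩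
    have h5 : (B2.card : ℝ) ≤ (s : ℝ) / 2000 := by linarith
    have h6 : (2000 * B2.card : ℝ) ≤ s := by linarith
    have h7 : 2000 * B2.card ≤ s := by exact_mod_cast h6
    omega
  · apply mul_le_mul_of_nonneg_left _ hC.le
    apply Real.rpow_le_rpow_of_exponent_le (by exact_mod_cast (by omega : 1 ≤ N))
    have h5 : ((s / 2000 : ℕ) : ℝ) ≤ (s : ℝ) / 2000 := by
      have := @Nat.cast_div_le ℝ _ _ _ s 2000
      simpa using this
    have h6 : (2000 : ℝ) * (T + 1) ≤ s := by exact_mod_cast hs3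
    linarith


open scoped Classical in
/-- the cover of the disjoint solutions by the exceptional ones and the fibres -/
theorem cover (hSEL : SELStm) (s k N a b : ℕ) (θ W V : ℝ) (hs : 1 ≤ s) (ha : a ≤ s) (hb : b ≤ s) (hN : 2 ≤ N)
    (hW : (N : ℝ) ^ (θ * s) = W) (hV : (N : ℝ) ^ ((a : ℝ) * b * θ) = V) :
    VD s k N ⊆ (VD s k N).filter (fun p => ∃ j,
      ((Finset.univ.lcm (fun i => ds (p.1 i) (p.2 j)) : ℕ) : ℝ) < W) ∪
      ((Finset.univ : Finset (Finset (Fin s) × Finset (Fin s))).filter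
          (fun q => q.1.card = a ∧ q.2.card = b)).biUnion
        (fun q => (Rst q.1 N ×ˢ Rst q.2 N).biUnion (fun w => Fib s k N W V q.1 q.2 w.1 w.2)) := by
  intro p hp
  rw [Finset.mem_union]
  by_cases hj : ∃ j, ((Finset.univ.lcm (fun i => ds (p.1 i) (p.2 j)) : ℕ) : ℝ) < W
  · left
    exact Finset.mem_filter.2 ⟨hp, hj⟩
  right
  push Not at hj
  obtain ⟨hx, hy, hxy⟩ := VD_basic (x := p.1) (y := p.2) hp
  obtain ⟨A, B, hA, hB, hAB⟩ := hSEL s a b N θ hs ha hb hN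
    (fun i j => ds (p.1 i) (p.2 j)) (fun i j => ds_bd (hx i) (hy j) (hxy i j))
    (fun j => by
      rw [hW]
      exact hj j)
  rw [hV] at hAB
  rw [Finset.mem_biUnion]
  refine ⟨(A, B), Finset.mem_filter.2 ⟨Finset.mem_univ _, hA, hB⟩, ?_⟩
  rw [Finset.mem_biUnion]
  refine ⟨(rst A p.1, rst B p.2), ?_, ?_⟩
  · rw [Finset.mem_product]
    exact ⟨rst_mem A _ hx, rst_mem B _ hy⟩
  · exact Finset.mem_filter.2 ⟨hp, hj, hAB, rfl, rfl⟩

open scoped Classical in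
theorem cover_card (s k N a b : ℕ) (W V X K : ℝ) (hK : 0 ≤ K)
    (hcov : VD s k N ⊆ (VD s k N).filter (fun p => ∃ j,
      ((Finset.univ.lcm (fun i => ds (p.1 i) (p.2 j)) : ℕ) : ℝ) < W) ∪
      ((Finset.univ : Finset (Finset (Fin s) × Finset (Fin s))).filter
          (fun q => q.1.card = a ∧ q.2.card = b)).biUnion
        (fun q => (Rst q.1 N ×ˢ Rst q.2 N).biUnion (fun w => Fib s k N W V q.1 q.2 w.1 w.2)))
    (hX : (((VD s k N).filter (fun p => ∃ j,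
      ((Finset.univ.lcm (fun i => ds (p.1 i) (p.2 j)) : ℕ) : ℝ) < W)).card : ℝ) ≤ X)
    (hfib : ∀ (A B : Finset (Fin s)) (ξ υ : Fin s → ℕ), A.card = a → B.card = b →
      ((Fib s k N W V A B ξ υ).card : ℝ) ≤ K) :
    ((VD s k N).card : ℝ) ≤ X + ((2 : ℝ) ^ s) ^ 2 * ((N : ℝ) ^ a * (N : ℝ) ^ b * K) := by
  have h1 := Finset.card_le_card hcov
  have h2 := le_trans h1 (Finset.card_union_le _ _)
  have h3 : ((VD s k N).card : ℝ) ≤ (((VD s k N).filter (fun p => ∃ j,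
    ((Finset.univ.lcm (fun i => ds (p.1 i) (p.2 j)) : ℕ) : ℝ) < W)).card : ℝ) +
    ((((Finset.univ : Finset (Finset (Fin s) × Finset (Fin s))).filter
        (fun q => q.1.card = a ∧ q.2.card = b)).biUnion
      (fun q => (Rst q.1 N ×ˢ Rst q.2 N).biUnion (fun w => Fib s k N W V q.1 q.2 w.1 w.2))).card : ℝ) := by
    rw [← Nat.cast_add]
    exact Nat.cast_le.2 h2
  refine le_trans h3 (add_le_add hX ?_)
  have h4 : ∀ q ∈ ((Finset.univ : Finset (Finset (Fin s) × Finset (Fin s))).filter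
      (fun q => q.1.card = a ∧ q.2.card = b)),
      ((((Rst q.1 N ×ˢ Rst q.2 N).biUnion (fun w => Fib s k N W V q.1 q.2 w.1 w.2)).card : ℕ) : ℝ) ≤
      (N : ℝ) ^ a * (N : ℝ) ^ b * K := by
    intro q hq
    rw [Finset.mem_filter] at hq
    refine le_trans (Nat.cast_le.2 Finset.card_biUnion_le) ?_
    rw [Nat.cast_sum]
    refine le_trans (Finset.sum_le_card_nsmul _ _ K ?_) ?_
    · intro w _
      exact hfib q.1 q.2 w.1 w.2 hq.2.1 hq.2.2
    · rw [Finset.card_product, Rst_card, Rst_card, hq.2.1, hq.2.2, nsmul_eq_mul, Nat.cast_mul,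
        Nat.cast_pow, Nat.cast_pow]
  refine le_trans (Nat.cast_le.2 Finset.card_biUnion_le) ?_
  rw [Nat.cast_sum]
  refine le_trans (Finset.sum_le_card_nsmul _ _ _ h4) ?_
  rw [nsmul_eq_mul]
  apply mul_le_mul_of_nonneg_right _ (by positivity)
  have h5 : (((Finset.univ : Finset (Finset (Fin s) × Finset (Fin s))).filter
      (fun q => q.1.card = a ∧ q.2.card = b)).card) ≤ (2 ^ s) ^ 2 := by
    refine le_trans (Finset.card_filter_le _ _) ?_
    rw [Finset.card_univ, Fintype.card_prod, Fintype.card_finset, Fintype.card_fin]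
    exact le_of_eq (by ring)
  have h6 : (((2 ^ s) ^ 2 : ℕ) : ℝ) = ((2 : ℝ) ^ s) ^ 2 := by push_cast; rfl
  rw [← h6]
  exact Nat.cast_le.2 h5

/-- the numerical end -/
theorem numer (s a b N : ℕ) (r C0 C1 C2 D V : ℝ) (hN : 1 ≤ N) (_hr : 10 * r ≤ s) (hs : 1000 ≤ s)
    (ha : a = 42 * s / 100) (hb : b = 577 * s / 1000) (hC0 : 0 ≤ C0) (hC1 : 0 < C1) (hC2 : 0 < C2)
    (hD : 0 ≤ D)
    (hV : V ≤ C1 * (N : ℝ) ^ ((s : ℝ) - r - (s : ℝ) / 250) * (N : ℝ) ^ (r + 1) +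
      D * ((N : ℝ) ^ a * (N : ℝ) ^ b * (C2 * (N : ℝ) ^ ((s : ℝ) / 1000)))) :
    V ≤ (C0 + C1 + D * C2) * (N : ℝ) ^ ((s : ℝ) - (s : ℝ) / 500) := by
  have hNr : (1 : ℝ) ≤ N := by exact_mod_cast hN
  have hNp : (0 : ℝ) < N := by linarith
  have hsR : (1000 : ℝ) ≤ s := by exact_mod_cast hs
  refine le_trans hV ?_
  have e1 : C1 * (N : ℝ) ^ ((s : ℝ) - r - (s : ℝ) / 250) * (N : ℝ) ^ (r + 1) ≤
      C1 * (N : ℝ) ^ ((s : ℝ) - (s : ℝ) / 500) := by
    rw [mul_assoc]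
    apply mul_le_mul_of_nonneg_left _ hC1.le
    rw [← Real.rpow_add hNp]
    apply Real.rpow_le_rpow_of_exponent_le hNr
    linarith
  have e2 : (N : ℝ) ^ a * (N : ℝ) ^ b * (C2 * (N : ℝ) ^ ((s : ℝ) / 1000)) ≤
      C2 * (N : ℝ) ^ ((s : ℝ) - (s : ℝ) / 500) := by
    have e3 : (N : ℝ) ^ a * (N : ℝ) ^ b * (C2 * (N : ℝ) ^ ((s : ℝ) / 1000)) =
        C2 * (N : ℝ) ^ ((a : ℝ) + b + (s : ℝ) / 1000) := by
      rw [Real.rpow_add hNp, Real.rpow_add hNp, Real.rpow_natCast, Real.rpow_natCast]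
      ring
    rw [e3]
    apply mul_le_mul_of_nonneg_left _ hC2.le
    apply Real.rpow_le_rpow_of_exponent_le hNr
    have ha1 : 100 * a ≤ 42 * s := by omega
    have hb1 : 1000 * b ≤ 577 * s := by omega
    have ha' : (100 : ℝ) * a ≤ 42 * s := by exact_mod_cast ha1
    have hb' : (1000 : ℝ) * b ≤ 577 * s := by exact_mod_cast hb1
    linarith
  have e4 := mul_le_mul_of_nonneg_left e2 hD
  have e5 : 0 ≤ C0 * (N : ℝ) ^ ((s : ℝ) - (s : ℝ) / 500) := by positivity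
  linarith

/-- PX-DISJ -/
theorem disj (hT2 : T2Stm) (hCLO : CLOStm) (hINC : INCStm) (hSEL : SELStm) (hEX : EXStm) (hFIB : FIBStm) :
    DISJ2Stm := by
  classical
  obtain ⟨s0, h0⟩ := fib_card hT2 hCLO hINC hFIB
  refine ⟨max s0 1000, ?_⟩
  intro s k hs hk h9
  have hs0 : s0 ≤ s := le_trans (le_max_left _ _) hs
  have hs1 : 1000 ≤ s := le_trans (le_max_right _ _) hs
  have hsR : (1000 : ℝ) ≤ s := by exact_mod_cast hs1
  obtain ⟨N0, C2, hC2, hfib⟩ := h0 s k hs0 hk h9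
  obtain ⟨C1, hC1, hex⟩ := hEX s k 1 hk one_pos
  have hC0' : 0 ≤ ∑ n ∈ Finset.range (max N0 2 + 1), ((VD s k n).card : ℝ) := by positivity
  generalize hC0 : ∑ n ∈ Finset.range (max N0 2 + 1), ((VD s k n).card : ℝ) = C0 at hC0'
  refine ⟨C0 + C1 + ((2 : ℝ) ^ s) ^ 2 * C2, by positivity, ?_⟩
  intro N hN
  have hNr : (1 : ℝ) ≤ N := by exact_mod_cast hN
  by_cases hNN : N < max N0 2
  · have hexp : (1 : ℝ) ≤ (N : ℝ) ^ ((s : ℝ) - (s : ℝ) / 500) := by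
      apply Real.one_le_rpow hNr
      linarith
    have h1 : ((VD s k N).card : ℝ) ≤ C0 := by
      rw [← hC0]
      exact Finset.single_le_sum (f := fun n => ((VD s k n).card : ℝ)) (fun n _ => by positivity)
          (Finset.mem_range.2 (by omega))
    calc ((VD s k N).card : ℝ) ≤ C0 * 1 := by linarith
      _ ≤ (C0 + C1 + ((2 : ℝ) ^ s) ^ 2 * C2) * (N : ℝ) ^ ((s : ℝ) - (s : ℝ) / 500) := by
          apply mul_le_mul _ hexp (by norm_num) (by positivity)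
          have : 0 ≤ ((2 : ℝ) ^ s) ^ 2 * C2 := by positivity
          linarith
  push Not at hNN
  have hN2 : 2 ≤ N := le_trans (le_max_right _ _) hNN
  have hNN0 : N0 ≤ N := le_trans (le_max_left _ _) hNN
  have hrs : 10 * ((s - k : ℕ) : ℝ) ≤ s := by
    have : 10 * (s - k) ≤ s := by omega
    exact_mod_cast this
  have hW1 : 1 ≤ (N : ℝ) ^ ((s : ℝ) - ((s - k : ℕ) : ℝ) - (s : ℝ) / 250) := by
    apply Real.one_le_rpow hNr
    linarith
  have hcov := cover hSEL s k N (42 * s / 100) (577 * s / 1000) (1 - ((s - k : ℕ) : ℝ) / s - 1 / 250)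
    ((N : ℝ) ^ ((s : ℝ) - ((s - k : ℕ) : ℝ) - (s : ℝ) / 250))
    ((N : ℝ) ^ (((42 * s / 100 : ℕ) : ℝ) * ((577 * s / 1000 : ℕ) : ℝ) * (1 - ((s - k : ℕ) : ℝ) / s - 1 / 250)))
    (by omega) (by omega) (by omega) hN2 (by congr 1; field_simp) rfl
  have hcard := cover_card s k N (42 * s / 100) (577 * s / 1000) _ _
    (C1 * (N : ℝ) ^ ((s : ℝ) - ((s - k : ℕ) : ℝ) - (s : ℝ) / 250) * (N : ℝ) ^ (((s - k : ℕ) : ℝ) + 1))
    (C2 * (N : ℝ) ^ ((s : ℝ) / 1000)) (by positivity) hcov (hex N hN _ hW1)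
    (fun A B ξ υ hA hB => hfib N hNN0 A B ξ υ hA hB)
  exact numer s _ _ N ((s - k : ℕ) : ℝ) C0 C1 C2 _ _ hN hrs hs1 rfl rfl hC0' hC1 hC2 (by positivity) hcard

end Pool.Agent.Y970.PX
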