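import Pool.Agent.Y970.PX.Stm
import Pool.Agent.W505.PV.VF

set_option autoImplicit false

namespace Pool.Agent.Y970.PX.Divp

open Finset Polynomial Pool.Agent.W89.VP Pool.Agent.Y970.PX

/-- the integers dividing `n` (`n ≠ 0`), with both signs -/
def sd (n : ℕ) : Finset ℤ := n.divisors.image (fun d : ℕ => (d : ℤ)) ∪ n.divisors.image (fun d : ℕ => -(d : ℤ))

theorem mem_sd {n a : ℤ} (hn : n ≠ 0) (h : a ∣ n) : a ∈ sd n.natAbs := by
  unfold sd
  rw [Finset.mem_union, Finset.mem_image, Finset.mem_image]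
  have hd : a.natAbs ∈ n.natAbs.divisors :=
    Nat.mem_divisors.2 ⟨Int.natAbs_dvd_natAbs.2 h, Int.natAbs_ne_zero.2 hn⟩
  rcases le_total 0 a with h0 | h0
  · left
    exact ⟨a.natAbs, hd, by omega⟩
  · right
    exact ⟨a.natAbs, hd, by omega⟩

theorem card_sd (n : ℕ) : (sd n).card ≤ 2 * n.divisors.card := by
  unfold sd
  refine le_trans (Finset.card_union_le _ _) ?_
  have h1 := Finset.card_image_le (s := n.divisors) (f := fun d : ℕ => (d : ℤ))
  have h2 := Finset.card_image_le (s := n.divisors) (f := fun d : ℕ => -(d : ℤ))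
  omega

theorem eval_bd (r M : ℕ) (D : ℤ[X]) (hr : D.natDegree ≤ r) (hM : ∀ l, (D.coeff l).natAbs ≤ M)
    (z : ℕ) (hz : z ≤ 2 * r + 1) : (D.eval (z : ℤ)).natAbs ≤ (r + 1) * M * (2 * r + 1) ^ r := by
  rw [Polynomial.eval_eq_sum_range' (n := r + 1) (by omega)]
  refine le_trans (Int.natAbs_sum_le _ _) ?_
  refine le_trans (Finset.sum_le_card_nsmul _ _ (M * (2 * r + 1) ^ r) ?_) ?_
  · intro l hl
    rw [Finset.mem_range] at hl
    rw [Int.natAbs_mul, Int.natAbs_pow, Int.natAbs_natCast]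
    apply Nat.mul_le_mul (hM l)
    calc z ^ l ≤ (2 * r + 1) ^ l := Nat.pow_le_pow_left hz l
      _ ≤ (2 * r + 1) ^ r := Nat.pow_le_pow_right (by omega) (by omega)
  · rw [Finset.card_range, nsmul_eq_mul]
    push_cast
    exact le_of_eq (by ring)

theorem main : DIVPStm := by
  classical
  intro r K ε hε
  have hε' : 0 < ε / (((K : ℝ) + 1) * ((r : ℝ) + 1)) := by positivity
  obtain ⟨C1, hC1, hdiv⟩ := Pool.Agent.W505.PV.VF.mainDIV _ hε'
  set e : ℝ := ε / (((K : ℝ) + 1) * ((r : ℝ) + 1)) with he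
  set B : ℕ := (r + 1) * K * (2 * r + 1) ^ r with hB
  refine ⟨(2 * C1 * ((B : ℝ) + 1) ^ e) ^ (r + 1), by positivity, ?_⟩
  intro N hN D hD hdeg hco
  have hNr : (1 : ℝ) ≤ N := by exact_mod_cast hN
  have hNp : (0 : ℝ) < N := by linarith
  -- good points
  have hroots : ((Finset.range (2 * r + 1)).filter (fun z : ℕ => D.eval (z : ℤ) = 0)).card ≤ r := by
    have h1 : ((Finset.range (2 * r + 1)).filter (fun z : ℕ => D.eval (z : ℤ) = 0)).card =
        (((Finset.range (2 * r + 1)).filter (fun z : ℕ => D.eval (z : ℤ) = 0)).image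
          (fun z : ℕ => (z : ℤ))).card := by
      rw [Finset.card_image_of_injective _ Nat.cast_injective]
    rw [h1]
    have h2 : ((Finset.range (2 * r + 1)).filter (fun z : ℕ => D.eval (z : ℤ) = 0)).image
          (fun z : ℕ => (z : ℤ)) ⊆ D.roots.toFinset := by
      intro a ha
      rw [Finset.mem_image] at ha
      obtain ⟨z, hz, rfl⟩ := ha
      rw [Finset.mem_filter] at hz
      rw [Multiset.mem_toFinset, Polynomial.mem_roots hD]
      exact hz.2
    refine le_trans (Finset.card_le_card h2) (le_trans (Multiset.toFinset_card_le _) ?_)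
    exact le_trans (Polynomial.card_roots' D) hdeg
  have hsum := Finset.card_filter_add_card_filter_not (s := Finset.range (2 * r + 1))
    (fun z : ℕ => D.eval (z : ℤ) = 0)
  rw [Finset.card_range] at hsum
  have hgood : r + 1 ≤ ((Finset.range (2 * r + 1)).filter (fun z : ℕ => ¬ D.eval (z : ℤ) = 0)).card := by
    omega
  obtain ⟨Z, hZs, hZc⟩ := Finset.exists_subset_card_eq hgood
  have hZ : ∀ z ∈ Z, z ≤ 2 * r + 1 ∧ D.eval (z : ℤ) ≠ 0 := by
    intro z hz
    have := Finset.mem_filter.1 (hZs hz)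
    rw [Finset.mem_range] at this
    exact ⟨by omega, this.2⟩
  set T : Finset (Z → ℤ) := Fintype.piFinset (fun z : Z => sd (D.eval ((z : ℕ) : ℤ)).natAbs) with hT
  have hmaps : Set.MapsTo (fun (H : ℤ[X]) (z : Z) => H.eval ((z : ℕ) : ℤ)) {H : ℤ[X] | H ∣ D} (T : Set (Z → ℤ)) := by
    intro H hH
    have hH' : H ∣ D := hH
    simp only [hT, Finset.mem_coe, Fintype.mem_piFinset]
    intro z
    apply mem_sd (hZ z z.2).2
    exact Polynomial.eval_dvd hH'
  have hinj : Set.InjOn (fun (H : ℤ[X]) (z : Z) => H.eval ((z : ℕ) : ℤ)) {H : ℤ[X] | H ∣ D} := by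
    intro H hH H' hH' heq
    have hc : (Z.image (fun z : ℕ => (z : ℤ))).card = r + 1 := by
      rw [Finset.card_image_of_injective _ Nat.cast_injective, hZc]
    have hdg : ∀ G : ℤ[X], G ∣ D → G.degree < ((Z.image (fun z : ℕ => (z : ℤ))).card : WithBot ℕ) := by
      intro G hG
      rw [hc]
      refine lt_of_le_of_lt Polynomial.degree_le_natDegree ?_
      have : G.natDegree ≤ r := le_trans (Polynomial.natDegree_le_of_dvd hG hD) hdeg
      exact_mod_cast (by omega : G.natDegree < r + 1)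
    apply Polynomial.eq_of_degrees_lt_of_eval_finset_eq (Z.image (fun z : ℕ => (z : ℤ))) (hdg H hH) (hdg H' hH')
    intro a ha
    rw [Finset.mem_image] at ha
    obtain ⟨z, hz, rfl⟩ := ha
    exact congrFun heq ⟨z, hz⟩
  refine ⟨Set.Finite.of_injOn hmaps hinj T.finite_toSet, ?_⟩
  have hcard : ({H : ℤ[X] | H ∣ D}.ncard) ≤ T.card := by
    have := Set.ncard_le_ncard_of_injOn _ hmaps hinj T.finite_toSet
    rwa [Set.ncard_coe_finset] at this
  have hTc : (T.card : ℝ) ≤ (2 * C1 * ((B : ℝ) + 1) ^ e * ((N : ℝ) ^ K) ^ e) ^ (r + 1) := by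
    rw [hT, Fintype.card_piFinset]
    push_cast
    have h1 : ∀ z : Z, ((sd (D.eval ((z : ℕ) : ℤ)).natAbs).card : ℝ) ≤
        2 * C1 * ((B : ℝ) + 1) ^ e * ((N : ℝ) ^ K) ^ e := by
      intro z
      have hne := (hZ z z.2).2
      have hb := eval_bd r (K * N ^ K) D hdeg hco z (hZ z z.2).1
      have h1 : 1 ≤ (D.eval ((z : ℕ) : ℤ)).natAbs := Nat.one_le_iff_ne_zero.2 (Int.natAbs_ne_zero.2 hne)
      have h2 := hdiv _ h1
      have h3 : ((D.eval ((z : ℕ) : ℤ)).natAbs : ℝ) ≤ ((B : ℝ) + 1) * (N : ℝ) ^ K := by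
        have h4 : (D.eval ((z : ℕ) : ℤ)).natAbs ≤ (B + 1) * N ^ K := by
          refine le_trans hb ?_
          rw [hB]
          have : (r + 1) * (K * N ^ K) * (2 * r + 1) ^ r = ((r + 1) * K * (2 * r + 1) ^ r) * N ^ K := by ring
          rw [this]
          exact Nat.mul_le_mul_right _ (by omega)
        exact_mod_cast h4
      have h5 : ((sd (D.eval ((z : ℕ) : ℤ)).natAbs).card : ℝ) ≤ 2 * ((D.eval ((z : ℕ) : ℤ)).natAbs.divisors.card : ℝ) := by
        exact_mod_cast card_sd _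
      calc ((sd (D.eval ((z : ℕ) : ℤ)).natAbs).card : ℝ)
          ≤ 2 * (C1 * ((D.eval ((z : ℕ) : ℤ)).natAbs : ℝ) ^ e) := by linarith
        _ ≤ 2 * (C1 * (((B : ℝ) + 1) * (N : ℝ) ^ K) ^ e) := by
            have := Real.rpow_le_rpow (by positivity) h3 hε'.le
            have := mul_le_mul_of_nonneg_left this hC1.le
            linarith
        _ = 2 * C1 * ((B : ℝ) + 1) ^ e * ((N : ℝ) ^ K) ^ e := by
            rw [Real.mul_rpow (by positivity) (by positivity)]
            ring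
    calc (∏ z : Z, ((sd (D.eval ((z : ℕ) : ℤ)).natAbs).card : ℝ))
        ≤ ∏ _z : Z, (2 * C1 * ((B : ℝ) + 1) ^ e * ((N : ℝ) ^ K) ^ e) :=
          Finset.prod_le_prod (fun _ _ => by positivity) (fun z _ => h1 z)
      _ = (2 * C1 * ((B : ℝ) + 1) ^ e * ((N : ℝ) ^ K) ^ e) ^ (r + 1) := by
          rw [Finset.prod_const, Finset.card_univ, Fintype.card_coe, hZc]
  calc (({H : ℤ[X] | H ∣ D}.ncard : ℕ) : ℝ) ≤ (T.card : ℝ) := by exact_mod_cast hcard
    _ ≤ (2 * C1 * ((B : ℝ) + 1) ^ e * ((N : ℝ) ^ K) ^ e) ^ (r + 1) := hTc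
    _ = (2 * C1 * ((B : ℝ) + 1) ^ e) ^ (r + 1) * (((N : ℝ) ^ K) ^ e) ^ (r + 1) := by rw [mul_pow]
    _ ≤ (2 * C1 * ((B : ℝ) + 1) ^ e) ^ (r + 1) * (N : ℝ) ^ ε := by
        apply mul_le_mul_of_nonneg_left _ (by positivity)
        rw [← Real.rpow_natCast (N : ℝ) K, ← Real.rpow_mul hNp.le, ← Real.rpow_natCast, ← Real.rpow_mul hNp.le]
        apply Real.rpow_le_rpow_of_exponent_le hNr
        rw [he]
        push_cast
        have h1 : (K : ℝ) * (ε / (((K : ℝ) + 1) * ((r : ℝ) + 1))) * ((r : ℝ) + 1) = ε * ((K : ℝ) / ((K : ℝ) + 1)) := by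
          field_simp
        rw [h1]
        have h2 : (K : ℝ) / ((K : ℝ) + 1) ≤ 1 := by
          rw [div_le_one (by positivity)]
          linarith
        nlinarith

end Pool.Agent.Y970.PX.Divp
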