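import Pool.Agent.Y970.PX.Stm

/-! # Project PX: from the count of disjoint solutions to the theorem -/

set_option autoImplicit false

namespace Pool.Agent.Y970.PX

open Finset Pool.Agent.W89.VP

/-- From the bounds for disjoint solutions, the reduction and the diagonal count to the asymptotic formula. -/
theorem final (hD : DISJ2Stm) (hR : REDStm) (hG : DIAGStm) : ∃ k0 : ℕ, ∀ s k : ℕ, k0 ≤ k → k < s → 9 * s ≤ 10 * k →
    ∃ C : ℝ, ∀ N : ℕ, 1 ≤ N →
      ((VN s k N).card : ℝ) ≤ C * (N : ℝ) ^ ((s : ℝ) - (k : ℝ) / 500) ∧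
      |((VS s k N).card : ℝ) - (s.factorial : ℝ) * (N : ℝ) ^ s| ≤ C * (N : ℝ) ^ (s - 1) := by
  classical
  obtain ⟨s0, h0⟩ := hD
  refine ⟨max s0 500, ?_⟩
  intro s k hk0 hks h9
  have hk1 : s0 ≤ k := le_trans (le_max_left _ _) hk0
  have hk2 : 500 ≤ k := le_trans (le_max_right _ _) hk0
  obtain ⟨C1, hC1, h1⟩ := hR s k
  have h2 : ∀ t ∈ Finset.Ioc k s, ∃ C : ℝ, 0 < C ∧ ∀ N : ℕ, 1 ≤ N →
      ((VD t k N).card : ℝ) ≤ C * (N : ℝ) ^ ((t : ℝ) - (k : ℝ) / 500) := by
    intro t ht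
    rw [Finset.mem_Ioc] at ht
    obtain ⟨C, hC, h⟩ := h0 t k (by omega) ht.1 (by omega)
    refine ⟨C, hC, fun N hN => le_trans (h N hN) ?_⟩
    apply mul_le_mul_of_nonneg_left _ hC.le
    apply Real.rpow_le_rpow_of_exponent_le (by exact_mod_cast hN)
    have : (k : ℝ) ≤ t := by exact_mod_cast ht.1.le
    linarith
  choose! C2 hC2 h3 using h2
  obtain ⟨C4, hC4, h4⟩ := hG s (by omega)
  set C3 : ℝ := C1 * ∑ t ∈ Finset.Ioc k s, C2 t with hC3
  have hC3' : 0 ≤ C3 := mul_nonneg hC1.le (Finset.sum_nonneg (fun t ht => (hC2 t ht).le))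
  have hVN : ∀ N : ℕ, 1 ≤ N → ((VN s k N).card : ℝ) ≤ C3 * (N : ℝ) ^ ((s : ℝ) - (k : ℝ) / 500) := by
    intro N hN
    have hN0 : (0 : ℝ) < N := by positivity
    refine le_trans (h1 N hN) ?_
    rw [hC3, mul_assoc]
    apply mul_le_mul_of_nonneg_left _ hC1.le
    rw [Finset.sum_mul]
    apply Finset.sum_le_sum
    intro t ht
    have hts : t ≤ s := (Finset.mem_Ioc.1 ht).2
    calc (N : ℝ) ^ (s - t) * ((VD t k N).card : ℝ)
        ≤ (N : ℝ) ^ (s - t) * (C2 t * (N : ℝ) ^ ((t : ℝ) - (k : ℝ) / 500)) :=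
          mul_le_mul_of_nonneg_left (h3 t ht N hN) (by positivity)
      _ = C2 t * ((N : ℝ) ^ (s - t) * (N : ℝ) ^ ((t : ℝ) - (k : ℝ) / 500)) := by ring
      _ = C2 t * (N : ℝ) ^ ((s : ℝ) - (k : ℝ) / 500) := by
          rw [← Real.rpow_natCast (N : ℝ) (s - t), ← Real.rpow_add hN0, Nat.cast_sub hts]
          congr 2
          ring
  refine ⟨C3 + C4, fun N hN => ?_⟩
  have hN0 : (0 : ℝ) < N := by positivity
  have hN1 : (1 : ℝ) ≤ N := by exact_mod_cast hN
  constructor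
  · refine le_trans (hVN N hN) ?_
    apply mul_le_mul_of_nonneg_right _ (by positivity)
    linarith
  · -- split
    have hsplit : (VS s k N).card = (VN s k N).card +
        (((Fintype.piFinset fun _ : Fin s => Finset.Icc 1 N) ×ˢ
          (Fintype.piFinset fun _ : Fin s => Finset.Icc 1 N)).filter
        (fun p : (Fin s → ℕ) × (Fin s → ℕ) => ∃ σ : Equiv.Perm (Fin s), p.2 = p.1 ∘ σ)).card := by
      have e1 : ((Fintype.piFinset fun _ : Fin s => Finset.Icc 1 N) ×ˢ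
          (Fintype.piFinset fun _ : Fin s => Finset.Icc 1 N)).filter
        (fun p : (Fin s → ℕ) × (Fin s → ℕ) => ∃ σ : Equiv.Perm (Fin s), p.2 = p.1 ∘ σ) =
          (VS s k N).filter (fun p => ∃ σ : Equiv.Perm (Fin s), p.2 = p.1 ∘ σ) := by
        ext p
        simp only [VS, Finset.mem_filter]
        constructor
        · rintro ⟨hp, σ, hσ⟩
          refine ⟨⟨hp, fun j => ?_⟩, σ, hσ⟩
          rw [hσ]
          exact (Equiv.sum_comp σ (fun i => p.1 i ^ (j.val + 1))).symm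
        · rintro ⟨⟨hp, -⟩, hσ⟩
          exact ⟨hp, hσ⟩
      rw [e1, VN, add_comm]
      convert (Finset.card_filter_add_card_filter_not (s := VS s k N)
        (fun p => ∃ σ : Equiv.Perm (Fin s), p.2 = p.1 ∘ σ)).symm
    have h5 := h4 N hN
    have h6 : ((VN s k N).card : ℝ) ≤ C3 * (N : ℝ) ^ (s - 1) := by
      refine le_trans (hVN N hN) ?_
      apply mul_le_mul_of_nonneg_left _ hC3'
      rw [← Real.rpow_natCast]
      apply Real.rpow_le_rpow_of_exponent_le hN1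
      rw [Nat.cast_sub (by omega)]
      have : (500 : ℝ) ≤ k := by exact_mod_cast hk2
      push_cast
      linarith
    rw [hsplit]
    push_cast
    have h7 : (0 : ℝ) ≤ ((VN s k N).card : ℝ) := by positivity
    rw [abs_le] at h5 ⊢
    constructor
    · nlinarith [h5.1, h5.2]
    · nlinarith [h5.1, h5.2]

end Pool.Agent.Y970.PX
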